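import Mathlib
import Pool.Agent.Helper950.RatApx

set_option autoImplicit false

namespace Pool.Agent.Results.MP_f92456_co.LinePlusTwo

/-- A set of points of the plane is rational if all distances between its points are rational. -/
def IsRational (X : Set (EuclideanSpace ℝ (Fin 2))) : Prop :=
  ∀ x ∈ X, ∀ y ∈ X, ∃ q : ℚ, dist x y = (q : ℝ)

/-- A set `S` is rationally approximable if for every `ε > 0` there is a rational set `X` such that
every point of `S` is within `ε` of a point of `X`. -/
def RationallyApproximable (S : Set (EuclideanSpace ℝ (Fin 2))) : Prop :=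
  ∀ ε : ℝ, 0 < ε → ∃ X, IsRational X ∧ ∀ s ∈ S, ∃ x ∈ X, dist s x < ε

/-- Every subset of the plane (finite or infinite) all but at most two of whose points lie on a
line, and every subset all but at most one of whose points lie on a circle, is rationally
approximable. -/
theorem result :
    (∀ S : Set (EuclideanSpace ℝ (Fin 2)), Collinear ℝ S →
      ∀ P Q : EuclideanSpace ℝ (Fin 2), RationallyApproximable (S ∪ {P, Q})) ∧
    (∀ S : Set (EuclideanSpace ℝ (Fin 2)), EuclideanGeometry.Cospherical S →
      ∀ Q : EuclideanSpace ℝ (Fin 2), RationallyApproximable (S ∪ {Q})) :=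
  ⟨fun S hS P Q => Pool.Agent.Helper950.RatApx.collinear_two S hS P Q,
    fun S hS Q => Pool.Agent.Helper950.RatApx.cospherical_one S hS Q⟩

end Pool.Agent.Results.MP_f92456_co.LinePlusTwo
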